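import Pool.Agent.Helper98.GH.GalC
import Pool.Agent.Helper43.GP.Defs

/-!
Project GP (MP_b8862a_ag): the lemmas of project GH on `IsGalW` for `IsGalU` (no condition `touch`).
-/

set_option linter.unusedSectionVars false

section P1

open Matrix GH

namespace MH

variable {n : Type*} [Fintype n] [DecidableEq n]

variable {w : ℤ} {Q : Matrix n n ℚ} {S : Finset ℤ} {P : ℤ → Matrix n n ℂ} {Γ : Subgroup (GL n ℂ)}

theorem IsGalU.centEC (G : IsGalU w Q S P Γ) : CentEC P Γ :=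
  ⟨fun Γ' h T hT => G.cent Γ' h.1 h.2 T hT, by
    obtain ⟨Γ', h1, h2, h3⟩ := G.comm
    exact ⟨Γ', ⟨h1, h2⟩, h3⟩⟩

/-- the elements of `LG` commute with the endomorphisms -/
theorem IsGalU.LG_EC (G : IsGalU w Q S P Γ) {X x : Matrix n n ℂ} (hX : X ∈ LG Γ) (hx : x ∈ EC P) : X * x = x * X :=
  MH.LG_EC G.centEC hX hx

/-- the Hodge-Tate projections commute with the endomorphisms -/
theorem IsGalU.R_EC (G : IsGalU w Q S P Γ) {S' : Finset ℤ} {R : ℤ → Matrix n n ℂ} (hRG : IsHTw w Q S' Γ R)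
    {x : Matrix n n ℂ} (hx : x ∈ EC P) (p : ℤ) : R p * x = x * R p := by
  classical
  set h := hR S' R with hh
  have hc : h * x = x * h := G.LG_EC hRG.hR_mem hx
  have hl : ∀ q, R q * h = (q : ℂ) • R q := by
    intro q
    by_cases hq : q ∈ S'
    · rw [hh, hR, Finset.mul_sum, Finset.sum_eq_single q]
      · rw [mul_smul_comm, hRG.mul, if_pos rfl]
      · intro r _ hr
        rw [mul_smul_comm, hRG.mul, if_neg (Ne.symm hr), smul_zero]
      · exact fun h => absurd hq h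
    · rw [hRG.supp q hq, zero_mul, smul_zero]
  have hr : ∀ q, h * R q = (q : ℂ) • R q := by
    intro q
    by_cases hq : q ∈ S'
    · rw [hh, hR, Finset.sum_mul, Finset.sum_eq_single q]
      · rw [smul_mul_assoc, hRG.mul, if_pos rfl]
      · intro r _ hr
        rw [smul_mul_assoc, hRG.mul, if_neg hr, smul_zero]
      · exact fun h => absurd hq h
    · rw [hRG.supp q hq, mul_zero, smul_zero]
  have hz : ∀ q r, q ≠ r → R q * x * R r = 0 := by
    intro q r hqr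
    have h1 : R q * (h * x) * R r = R q * (x * h) * R r := by rw [hc]
    have h2 : (q : ℂ) • (R q * x * R r) = (r : ℂ) • (R q * x * R r) := by
      calc (q : ℂ) • (R q * x * R r) = R q * h * x * R r := by
            rw [hl, smul_mul_assoc, smul_mul_assoc]
        _ = R q * (h * x) * R r := by simp only [mul_assoc]
        _ = R q * (x * h) * R r := h1
        _ = R q * x * (h * R r) := by simp only [mul_assoc]
        _ = (r : ℂ) • (R q * x * R r) := by rw [hr, mul_smul_comm]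
    have h3 : ((q : ℂ) - (r : ℂ)) • (R q * x * R r) = 0 := by rw [sub_smul, h2, sub_self]
    rcases smul_eq_zero.mp h3 with h4 | h4
    · exact absurd (by exact_mod_cast sub_eq_zero.mp h4) hqr
    · exact h4
  by_cases hp : p ∈ S'
  · calc R p * x = R p * x * ∑ q ∈ S', R q := by rw [hRG.sum, mul_one]
      _ = R p * x * R p := by
          rw [Finset.mul_sum, Finset.sum_eq_single p]
          · intro q _ hq
            exact hz p q (Ne.symm hq)
          · exact fun h => absurd hp h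
      _ = (∑ q ∈ S', R q) * x * R p := by
          rw [Finset.sum_mul, Finset.sum_mul, Finset.sum_eq_single p]
          · intro q _ hq
            exact hz q p hq
          · exact fun h => absurd hp h
      _ = x * R p := by rw [hRG.sum, one_mul]
  · rw [hRG.supp p hp, zero_mul, mul_zero]

section spec

variable {k : Type*} [Fintype k] [DecidableEq k] {A : ℤ → Matrix k k ℂ} {S' : Finset ℤ}

end spec

end MH

end P1

section P2

open Matrix

namespace MH

variable {n : Type*} [Fintype n] [DecidableEq n]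

variable {w : ℤ} {Q : Matrix n n ℚ} {S S' : Finset ℤ} {P R : ℤ → Matrix n n ℂ} {Γ : Subgroup (GL n ℂ)}

theorem IsGalU.LG_com (G : IsGalU w Q S P Γ) {X x : Matrix n n ℂ} (hX : X ∈ LG Γ) (hx : x ∈ EC P) :
    X * x = x * X := by
  obtain ⟨Γ', h1, h2, h3⟩ := G.comm
  have h4 : IsTateTensor Γ 1 1 (t11 x) := by
    refine ⟨Γ', h1, h2, fun g hg => ?_⟩
    rw [slot11, h3 g hg x hx, mul_assoc, ← Units.val_mul, mul_inv_cancel, Units.val_one, mul_one]
  have h5 := hX 1 1 _ h4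
  rw [dL_t11] at h5
  have h6 : X * x - x * X = 0 := t11_inj (h5.trans (by funext i; rfl))
  exact sub_eq_zero.1 h6

theorem IsGalU.R_com (G : IsGalU w Q S P Γ) (hG : IsHTw w Q S' Γ R) {x : Matrix n n ℂ} (hx : x ∈ EC P) (p : ℤ) :
    R p * x = x * R p := hG.com_of (G.LG_com hG.hR_mem hx) p

/-- every block is irreducible under all subgroups of finite index that commute with the endomorphisms -/
theorem IsGalU.block_irr (G : IsGalU w Q S P Γ) {e : Matrix n n ℂ}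
    (he : IsBlk P e) {Γ' : Subgroup (GL n ℂ)} (hΓ : Γ' ≤ Γ) (hi : Γ'.relIndex Γ ≠ 0)
    (W : Submodule ℂ (n → ℂ)) (hW : ∀ g ∈ Γ', ∀ w ∈ W, (g : Matrix n n ℂ) *ᵥ w ∈ W) (hWe : ∀ w ∈ W, e *ᵥ w = w) :
    W = ⊥ ∨ ∀ w, e *ᵥ w = w → w ∈ W := by
  classical
  by_cases h0 : W = ⊥
  · exact Or.inl h0
  right
  obtain ⟨W', hW', hWW⟩ := G.ss Γ' hΓ hi W hW
  obtain ⟨w₀, hw₀, hne⟩ := (Submodule.ne_bot_iff W).mp h0
  -- the projection onto `W` along `W'`
  set f : (n → ℂ) →ₗ[ℂ] (n → ℂ) := W.subtype ∘ₗ W.projectionOnto W' hWW with hf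
  have f1 : ∀ w ∈ W, f w = w := by
    intro w hw
    have := Submodule.projectionOnto_apply_left hWW ⟨w, hw⟩
    rw [hf, LinearMap.comp_apply, this]
    rfl
  have f2 : ∀ w ∈ W', f w = 0 := by
    intro w hw
    rw [hf, LinearMap.comp_apply, (Submodule.projectionOnto_apply_eq_zero_iff hWW).mpr hw, map_zero]
  have f3 : ∀ w, f w ∈ W := fun w => (W.projectionOnto W' hWW w).2
  set T := LinearMap.toMatrix' f with hT
  have hTv : ∀ w, T *ᵥ w = f w := fun w => LinearMap.toMatrix'_mulVec f w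
  have hTc : ∀ g ∈ Γ', (g : Matrix n n ℂ) * T = T * (g : Matrix n n ℂ) := by
    intro g hg
    apply Matrix.toLin'.injective
    apply LinearMap.ext
    intro v
    rw [Matrix.toLin'_apply, Matrix.toLin'_apply, ← Matrix.mulVec_mulVec, ← Matrix.mulVec_mulVec, hTv, hTv]
    obtain ⟨y, hy, z, hz, rfl⟩ := Submodule.mem_sup.mp (hWW.sup_eq_top ▸ Submodule.mem_top (x := v))
    rw [map_add, f1 y hy, f2 z hz, add_zero, Matrix.mulVec_add, map_add, f1 _ (hW g hg y hy),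
      f2 _ (hW' g hg z hz), add_zero]
  obtain ⟨c, hc⟩ := he.min T (G.cent Γ' hΓ hi T hTc)
  have hTe : ∀ w, e *ᵥ (T *ᵥ w) = T *ᵥ w := fun w => by rw [hTv]; exact hWe _ (f3 w)
  have hc1 : c = 1 := by
    have h1 : (e * T * e) *ᵥ w₀ = w₀ := by
      rw [← Matrix.mulVec_mulVec, hWe _ hw₀, ← Matrix.mulVec_mulVec, hTe, hTv, f1 _ hw₀]
    rw [hc, Matrix.smul_mulVec, hWe _ hw₀] at h1
    by_contra hn
    apply hne
    have h2 : (c - 1) • w₀ = 0 := by rw [sub_smul, h1, one_smul, sub_self]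
    rcases smul_eq_zero.mp h2 with h3 | h3
    · exact absurd (sub_eq_zero.mp h3) hn
    · exact h3
  intro w hw
  have h1 : (e * T * e) *ᵥ w = w := by rw [hc, hc1, one_smul, hw]
  rw [← Matrix.mulVec_mulVec, hw, ← Matrix.mulVec_mulVec, hTe, hTv] at h1
  rw [← h1]
  exact f3 w

section cmp

variable {r : ℕ} {W : Matrix n (Fin r) ℂ} {V : Matrix (Fin r) n ℂ} {e : Matrix n n ℂ}

/-- the group of compressions -/
theorem IsGalU.exists_grp (G : IsGalU w Q S P Γ) (he : IsBlk P e) (hVW : V * W = 1) (hWV : W * V = e) :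
    ∃ Δ : Subgroup (GL (Fin r) ℂ), VIrr Δ ∧ ∀ g ∈ Δ, ∀ y ∈ cpL W V (LG Γ),
      (g : Matrix (Fin r) (Fin r) ℂ) * y * ((g⁻¹ : GL (Fin r) ℂ) : Matrix (Fin r) (Fin r) ℂ) ∈ cpL W V (LG Γ) := by
  classical
  have heW : e * W = W := by
    rw [← hWV, Matrix.mul_assoc, hVW, Matrix.mul_one]
  obtain ⟨Γ', hΓ', hΓi, hcm⟩ := G.comm
  have hc : ∀ g ∈ Γ', (g : Matrix n n ℂ) * e = e * (g : Matrix n n ℂ) := fun g hg => hcm g hg e he.mem
  obtain ⟨φ, hφ⟩ : ∃ φ : Γ' →* GL (Fin r) ℂ, φ = hom98 hVW hWV Γ' hc := ⟨_, rfl⟩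
  have hφ1 : ∀ g : Γ', (φ g : Matrix (Fin r) (Fin r) ℂ) = V * (g.1 : Matrix n n ℂ) * W := fun g => by
    rw [hφ]
    rfl
  have hφW : ∀ g : Γ', (g.1 : Matrix n n ℂ) * W = W * (φ g : Matrix (Fin r) (Fin r) ℂ) := by
    intro g
    rw [hφ1]
    calc (g.1 : Matrix n n ℂ) * W = (g.1 : Matrix n n ℂ) * (e * W) := by rw [heW]
      _ = e * (g.1 : Matrix n n ℂ) * W := by rw [← Matrix.mul_assoc, hc g.1 g.2]
      _ = W * V * (g.1 : Matrix n n ℂ) * W := by rw [hWV]
      _ = W * (V * (g.1 : Matrix n n ℂ) * W) := by simp only [Matrix.mul_assoc]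
  refine ⟨φ.range, ?_, ?_⟩
  · intro Γ'' hΓ'' hidx W0 hW0
    obtain ⟨K, hK⟩ : ∃ K, K = Γ''.comap φ := ⟨_, rfl⟩
    have hK1 : K.index ≠ 0 := by
      rw [hK, Subgroup.index_comap]
      exact hidx
    obtain ⟨Γ3, hΓ3⟩ : ∃ Γ3, Γ3 = K.map Γ'.subtype := ⟨_, rfl⟩
    have h3 : Γ3 ≤ Γ' := by
      rw [hΓ3]
      exact Subgroup.map_subtype_le K
    have hFI : Γ3.relIndex Γ ≠ 0 := by
      rw [← Subgroup.relIndex_mul_relIndex Γ3 Γ' Γ h3 hΓ']
      refine mul_ne_zero ?_ hΓi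
      rw [Subgroup.relIndex, Subgroup.subgroupOf, hΓ3, Subgroup.comap_map_eq_self_of_injective]
      · exact hK1
      · exact Subtype.val_injective
    have hstab : ∀ g ∈ Γ3, ∀ w ∈ W0.map (Matrix.mulVecLin W), (g : Matrix n n ℂ) *ᵥ w ∈
        W0.map (Matrix.mulVecLin W) := by
      intro g hg w hw
      rw [hΓ3, Subgroup.mem_map] at hg
      obtain ⟨g', hg', rfl⟩ := hg
      rw [Submodule.mem_map] at hw
      obtain ⟨w', hw', rfl⟩ := hw
      rw [Submodule.mem_map]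
      rw [hK, Subgroup.mem_comap] at hg'
      refine ⟨(φ g' : Matrix (Fin r) (Fin r) ℂ) *ᵥ w', hW0 _ hg' _ hw', ?_⟩
      rw [Matrix.mulVecLin_apply, Matrix.mulVecLin_apply, Matrix.mulVec_mulVec, Matrix.mulVec_mulVec, ← hφW]
      rfl
    rcases G.block_irr he (h3.trans hΓ') hFI (W0.map (Matrix.mulVecLin W)) hstab (by
      intro w hw
      rw [Submodule.mem_map] at hw
      obtain ⟨w', -, rfl⟩ := hw
      rw [Matrix.mulVecLin_apply, Matrix.mulVec_mulVec, heW]) with h4 | h4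
    · left
      rw [eq_bot_iff]
      intro w hw
      have h5 : W *ᵥ w ∈ W0.map (Matrix.mulVecLin W) := ⟨w, hw, rfl⟩
      rw [h4, Submodule.mem_bot] at h5
      have h6 : V *ᵥ (W *ᵥ w) = w := by rw [Matrix.mulVec_mulVec, hVW, Matrix.one_mulVec]
      rw [h5, Matrix.mulVec_zero] at h6
      rw [Submodule.mem_bot]
      exact h6.symm
    · right
      rw [eq_top_iff]
      intro w _
      have h5 := h4 (W *ᵥ w) (by rw [Matrix.mulVec_mulVec, heW])
      rw [Submodule.mem_map] at h5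
      obtain ⟨w', hw', h6⟩ := h5
      rw [Matrix.mulVecLin_apply] at h6
      have h7 := congrArg (V *ᵥ ·) h6
      simp only [Matrix.mulVec_mulVec, hVW, Matrix.one_mulVec] at h7
      rw [← h7]
      exact hw'
  · rintro _ ⟨g, rfl⟩ y ⟨x, hx', rfl⟩
    refine ⟨(g.1 : Matrix n n ℂ) * x * ((g.1⁻¹ : GL n ℂ) : Matrix n n ℂ), LG_conj (hΓ' g.2) hx', ?_⟩
    rw [← map_inv, hφ1, hφ1, cmp_mul98 hVW hWV (hc g.1 g.2), cmp_mul98 hVW hWV ?_]
    · rfl
    · rw [Matrix.mul_assoc, G.LG_com hx' he.mem, ← Matrix.mul_assoc, hc g.1 g.2, Matrix.mul_assoc]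

/-- the compression of `LG` is closed under brackets -/
theorem IsGalU.cpL_br (G : IsGalU w Q S P Γ) (he : IsBlk P e) (hVW : V * W = 1) (hWV : W * V = e) :
    ∀ y ∈ cpL W V (LG Γ), ∀ z ∈ cpL W V (LG Γ), y * z - z * y ∈ cpL W V (LG Γ) := by
  rintro _ ⟨x, hx, rfl⟩ _ ⟨x', hx', rfl⟩
  refine ⟨x * x' - x' * x, LG_br hx hx', ?_⟩
  rw [cmp_mul98 hVW hWV (G.LG_com hx he.mem), cmp_mul98 hVW hWV (G.LG_com hx' he.mem), Matrix.mul_sub,
    Matrix.sub_mul]

theorem IsGalU.exists_CR (G : IsGalU w Q S P Γ) (hG : IsHTw w Q S' Γ R) (he : IsBlk P e) (hVW : V * W = 1)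
    (hWV : W * V = e) : ∃ A, CR e W V S' R A := by
  have hRe : ∀ p, R p * e = e * R p := fun p => G.R_com hG he.mem p
  have hAmul : ∀ p q, (V * R p * W) * (V * R q * W) = if p = q then V * R p * W else 0 := by
    intro p q
    rw [cmp_mul98 hVW hWV (hRe p), hG.mul]
    by_cases hpq : p = q
    · rw [if_pos hpq, if_pos hpq]
    · rw [if_neg hpq, if_neg hpq, Matrix.mul_zero, Matrix.zero_mul]
  refine ⟨fun p => V * R p * W, fun _ => rfl, hAmul, ?_, ?_, ?_, ?_⟩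
  · intro p hp
    simp only [hG.supp p hp, Matrix.mul_zero, Matrix.zero_mul]
  · calc ∑ p ∈ S', V * R p * W = V * (∑ p ∈ S', R p) * W := by
          rw [Matrix.mul_sum, Matrix.sum_mul]
      _ = 1 := by rw [hG.sum, Matrix.mul_one, hVW]
  · intro p
    have h1 : (V * R p * W).trace = ((V * R p * W).rank : ℂ) := trace_eq_rank (by rw [hAmul, if_pos rfl])
    have h2 : (e * R p).trace = ((e * R p).rank : ℂ) := trace_eq_rank (by
      calc e * R p * (e * R p) = e * (R p * e) * R p := by simp only [Matrix.mul_assoc]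
        _ = e * e * (R p * R p) := by rw [hRe]; simp only [Matrix.mul_assoc]
        _ = e * R p := by rw [he.idem, hG.mul, if_pos rfl])
    have h3 : (V * R p * W).trace = (e * R p).trace := by
      rw [Matrix.trace_mul_comm, ← Matrix.mul_assoc, hWV]
    rw [h1, h2] at h3
    exact_mod_cast h3
  · rw [hR, Matrix.mul_sum, Matrix.sum_mul]
    refine Finset.sum_congr rfl fun p _ => ?_
    rw [Matrix.mul_smul, Matrix.smul_mul]

/-- There is a Hodge-Tate decomposition whose numbers on the block `e` have no common divisor. -/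
def HasHT (w : ℤ) (Q : Matrix n n ℚ) (Γ : Subgroup (GL n ℂ)) (e : Matrix n n ℂ) : Prop :=
  ∃ (S1 : Finset ℤ) (R1 : ℤ → Matrix n n ℂ), IsHTw w Q S1 Γ R1 ∧ ∀ d : ℕ, (∀ p, d ∣ (e * R1 p).rank) → d = 1

/-- B1: a block of `LG` is irreducible. -/
theorem IsGalU.irr' (G : IsGalU w Q S P Γ) (he : IsBlk P e) (hVW : V * W = 1) (hWV : W * V = e)
    (hT0 : HasHT w Q Γ e)
    (U : Submodule ℂ (Fin r → ℂ)) (hU : ∀ y ∈ cpL W V (LG Γ), ∀ u ∈ U, y *ᵥ u ∈ U) : U = ⊥ ∨ U = ⊤ := by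
  classical
  have hr := blk_rank he hVW hWV
  by_cases h1 : r = 1
  · subst h1
    by_cases h0 : U = ⊥
    · exact Or.inl h0
    · right
      obtain ⟨u, hu, hu0⟩ := (Submodule.ne_bot_iff U).1 h0
      rw [eq_top_iff]
      intro v _
      have hu1 : u 0 ≠ 0 := by
        intro h2
        apply hu0
        funext i
        rw [Subsingleton.elim i 0, h2]
        rfl
      have h3 : v = (v 0 / u 0) • u := by
        funext i
        rw [Subsingleton.elim i 0, Pi.smul_apply, smul_eq_mul, div_mul_cancel₀ _ hu1]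
      rw [h3]
      exact U.smul_mem _ hu
  · obtain ⟨S1, R1, hR1, hg⟩ := hT0
    obtain ⟨A, C⟩ := G.exists_CR hR1 he hVW hWV
    obtain ⟨Δ, hΔ, hconj⟩ := G.exists_grp he hVW hWV
    obtain ⟨F, Λ, hSD, hF, hΛ⟩ := C.exists_sd 0
    rw [Int.cast_zero, zero_smul, sub_zero] at hSD
    refine clifford (Γ := Δ) _ hconj hΔ (h := V * hR S1 R1 * W) ⟨_, hR1.hR_mem, rfl⟩ hSD ?_ U hU
    intro d hd
    refine hg d fun p => ?_
    by_cases hp : p ∈ S1
    · have h2 := hd _ (by rw [hΛ]; exact Finset.mem_image_of_mem _ hp)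
      rwa [hF, C.rank] at h2
    · rw [hR1.supp p hp, Matrix.mul_zero, Matrix.rank_zero]
      exact dvd_zero d

end cmp

end MH

end P2

section P3

open Matrix Module GH

namespace MH

variable {n : Type*} [Fintype n] [DecidableEq n]

variable {w : ℤ} {Q : Matrix n n ℚ} {S S' : Finset ℤ} {P R : ℤ → Matrix n n ℂ} {Γ : Subgroup (GL n ℂ)}

/-- product of tensors -/
private def pt98 {a b : ℕ} (u : (Fin a → n) → ℂ) (v : (Fin b → n) → ℂ) : (Fin a ⊕ Fin b → n) → ℂ :=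
  fun i => u (fun k => i (Sum.inl k)) * v (fun k => i (Sum.inr k))

private lemma act_pt98 {a b : ℕ} (u : (Fin a → n) → ℂ) (v : (Fin b → n) → ℂ)
    (A : Fin a ⊕ Fin b → Matrix n n ℂ) (i : Fin a ⊕ Fin b → n) :
    actF A (pt98 u v) i =
      actF (fun k => A (Sum.inl k)) u (fun k => i (Sum.inl k)) *
        actF (fun k => A (Sum.inr k)) v (fun k => i (Sum.inr k)) := by
  unfold actF
  rw [Finset.sum_mul_sum, ← Fintype.sum_prod_type']
  refine Fintype.sum_equiv (Equiv.sumArrowEquivProdArrow (Fin a) (Fin b) n) _ _ fun j => ?_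
  rw [Fintype.prod_sum_type]
  simp only [pt98, Equiv.sumArrowEquivProdArrow, Equiv.coe_fn_mk, Function.comp_def]
  ring

private lemma dact_pt98 {a b : ℕ} (u : (Fin a → n) → ℂ) (v : (Fin b → n) → ℂ)
    (A : Fin a ⊕ Fin b → Matrix n n ℂ) (i : Fin a ⊕ Fin b → n) :
    dact A (pt98 u v) i =
      dact (fun k => A (Sum.inl k)) u (fun k => i (Sum.inl k)) * v (fun k => i (Sum.inr k)) +
        u (fun k => i (Sum.inl k)) * dact (fun k => A (Sum.inr k)) v (fun k => i (Sum.inr k)) := by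
  unfold dact
  simp only [Finset.sum_apply, Fintype.sum_sum_type, act_pt98, Finset.sum_mul, Finset.mul_sum]
  congr 1
  · refine Finset.sum_congr rfl fun k _ => ?_
    congr 1
    · congr 1
      funext l
      by_cases h : l = k
      · subst h
        simp
      · rw [Function.update_of_ne h, Function.update_of_ne (by simpa using h)]
    · have e1 : (fun l => Function.update (fun _ => (1 : Matrix n n ℂ)) (Sum.inl k : Fin a ⊕ Fin b)
          (A (Sum.inl k)) (Sum.inr l)) = fun _ => 1 := by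
        funext l
        rw [Function.update_of_ne (by simp)]
      rw [e1, actF_one]
  · refine Finset.sum_congr rfl fun k _ => ?_
    congr 1
    · have e1 : (fun l => Function.update (fun _ => (1 : Matrix n n ℂ)) (Sum.inr k : Fin a ⊕ Fin b)
          (A (Sum.inr k)) (Sum.inl l)) = fun _ => 1 := by
        funext l
        rw [Function.update_of_ne (by simp)]
      rw [e1, actF_one]
    · congr 1
      funext l
      by_cases h : l = k
      · subst h
        simp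
      · rw [Function.update_of_ne h, Function.update_of_ne (by simpa using h)]

/-- the tensor of a matrix -/
private def q2_98 (M : Matrix n n ℂ) : (Fin 2 → n) → ℂ := fun j => M (j 0) (j 1)

private lemma act_q2_98 (A : Fin 2 → Matrix n n ℂ) (M : Matrix n n ℂ) (i : Fin 2 → n) :
    actF A (q2_98 M) i = (A 0 * M * (A 1)ᵀ) (i 0) (i 1) := by
  unfold actF q2_98
  rw [← Equiv.sum_comp (finTwoArrowEquiv n).symm, Fintype.sum_prod_type]
  simp only [Matrix.mul_apply, Finset.sum_mul, Matrix.transpose_apply, finTwoArrowEquiv_symm_apply,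
    Matrix.cons_val_zero, Matrix.cons_val_one, Fin.prod_univ_two]
  rw [Finset.sum_comm]
  refine Finset.sum_congr rfl fun x _ => Finset.sum_congr rfl fun y _ => ?_
  ring

private lemma dact_q2_98 (A : Fin 2 → Matrix n n ℂ) (M : Matrix n n ℂ) (i : Fin 2 → n) :
    dact A (q2_98 M) i = (A 0 * M + M * (A 1)ᵀ) (i 0) (i 1) := by
  unfold dact
  rw [Fin.sum_univ_two, Pi.add_apply, act_q2_98, act_q2_98, Matrix.add_apply]
  simp

/-- the elements of `LG` are infinitesimal similitudes -/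
theorem IsGalU.LG_sim (H : IsHW w Q S P) (G : IsGalU w Q S P Γ) {X : Matrix n n ℂ} (hX : X ∈ LG Γ) :
    ∃ c : ℂ, Xᵀ * toC Q + toC Q * X = c • toC Q := by
  obtain ⟨_, _, Qi, _, _, hQ1, hQ2, _⟩ := H.exists_basis
  rcases isEmpty_or_nonempty n with hn | hn
  · exact ⟨0, by ext i; exact hn.elim i⟩
  have hgg : ∀ g : GL n ℂ, (g : Matrix n n ℂ) * ((g⁻¹ : GL n ℂ) : Matrix n n ℂ) = 1 := by
    intro g
    rw [← Units.val_mul, mul_inv_cancel, Units.val_one]
  have hginv : ∀ g ∈ Γ, ∃ z : ℂ,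
      toC Q = z • ((((g⁻¹ : GL n ℂ) : Matrix n n ℂ))ᵀ * toC Q * ((g⁻¹ : GL n ℂ) : Matrix n n ℂ)) ∧
      (g : Matrix n n ℂ) * Qi * (g : Matrix n n ℂ)ᵀ = z • Qi := by
    intro g hg
    obtain ⟨z, h1⟩ := G.sim g hg
    set g' := ((g⁻¹ : GL n ℂ) : Matrix n n ℂ) with hg'
    have h2 : (g : Matrix n n ℂ) * g' = 1 := hgg g
    have h3 : g'ᵀ * (g : Matrix n n ℂ)ᵀ = 1 := by rw [← Matrix.transpose_mul, h2, Matrix.transpose_one]
    refine ⟨z, ?_, ?_⟩
    · calc toC Q = (g'ᵀ * (g : Matrix n n ℂ)ᵀ) * toC Q * ((g : Matrix n n ℂ) * g') := by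
            rw [h2, h3, one_mul, mul_one]
        _ = g'ᵀ * ((g : Matrix n n ℂ)ᵀ * toC Q * (g : Matrix n n ℂ)) * g' := by simp only [mul_assoc]
        _ = z • (g'ᵀ * toC Q * g') := by rw [h1, mul_smul_comm, smul_mul_assoc]
    · have h4 : (g : Matrix n n ℂ) = z • (Qi * g'ᵀ * toC Q) := by
        calc (g : Matrix n n ℂ) = (Qi * toC Q) * (g : Matrix n n ℂ) := by rw [hQ2, one_mul]
          _ = Qi * (g'ᵀ * (g : Matrix n n ℂ)ᵀ) * (toC Q * (g : Matrix n n ℂ)) := by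
              rw [h3, mul_one, mul_assoc]
          _ = Qi * g'ᵀ * ((g : Matrix n n ℂ)ᵀ * toC Q * (g : Matrix n n ℂ)) := by simp only [mul_assoc]
          _ = z • (Qi * g'ᵀ * toC Q) := by rw [h1, mul_smul_comm]
      calc (g : Matrix n n ℂ) * Qi * (g : Matrix n n ℂ)ᵀ =
          z • (Qi * g'ᵀ * toC Q * Qi * (g : Matrix n n ℂ)ᵀ) := by
            conv_lhs => rw [mul_assoc]; arg 1; rw [h4]
            rw [smul_mul_assoc]
            simp only [mul_assoc]
        _ = z • (Qi * (g'ᵀ * (g : Matrix n n ℂ)ᵀ)) := by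
            congr 1
            rw [mul_assoc (Qi * g'ᵀ), hQ1, mul_one, mul_assoc]
        _ = z • Qi := by rw [h3, mul_one]
  obtain ⟨x0, y0, hxy⟩ : ∃ x y, Qi x y ≠ 0 := by
    by_contra! hcon
    have h0 : Qi = 0 := by
      ext x y
      exact hcon x y
    rw [h0, mul_zero] at hQ1
    obtain ⟨x⟩ := hn
    have := congrFun (congrFun hQ1 x) x
    simp at this
  set t : (Fin 2 ⊕ Fin 2 → n) → ℂ := pt98 (q2_98 Qi) (q2_98 (toC Q)) with ht
  have hfix : IsTateTensor Γ 2 2 t := by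
    refine ⟨Γ, le_rfl, by rw [Subgroup.relIndex_self]; exact one_ne_zero, ?_⟩
    intro g hg
    obtain ⟨z, h1, h1'⟩ := hginv g hg
    funext i
    rw [ht, act_pt98, act_q2_98, act_q2_98]
    simp only [slot, Sum.elim_inr, Sum.elim_inl, Matrix.transpose_transpose]
    rw [h1']
    have h2 := congrFun (congrFun h1 (i (Sum.inr 0))) (i (Sum.inr 1))
    simp only [Matrix.smul_apply, smul_eq_mul] at h2 ⊢
    unfold pt98 q2_98
    rw [h2]
    ring
  have h2 := hX 2 2 t hfix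
  rw [dL_apply] at h2
  refine ⟨(X * Qi + Qi * Xᵀ) x0 y0 / Qi x0 y0, ?_⟩
  ext x y
  have h3 := congrFun h2 (Sum.elim ![x0, y0] ![x, y])
  rw [ht, dact_pt98, dact_q2_98, dact_q2_98] at h3
  simp only [lslot, Sum.elim_inr, Sum.elim_inl, Matrix.cons_val_zero, Matrix.cons_val_one, Matrix.transpose_neg,
    Matrix.transpose_transpose, Pi.zero_apply, q2_98] at h3
  rw [neg_mul, mul_neg, ← neg_add, Matrix.neg_apply] at h3
  rw [Matrix.smul_apply, smul_eq_mul, div_mul_eq_mul_div, eq_div_iff hxy]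
  linear_combination -h3

section cmp

variable {r : ℕ} {W : Matrix n (Fin r) ℂ} {V : Matrix (Fin r) n ℂ} {e : Matrix n n ℂ}

theorem IsGalU.cpS_br (G : IsGalU w Q S P Γ) (he : IsBlk P e) (hVW : V * W = 1) (hWV : W * V = e) :
    ∀ x ∈ cpS W V (LG Γ), ∀ y ∈ cpS W V (LG Γ), x * y - y * x ∈ cpS W V (LG Γ) := by
  intro x hx y hy
  obtain ⟨x', hx', c, rfl⟩ := mem_cpS.1 hx
  obtain ⟨y', hy', d, rfl⟩ := mem_cpS.1 hy
  have e1 : (x' + c • (1 : Matrix (Fin r) (Fin r) ℂ)) * (y' + d • (1 : Matrix (Fin r) (Fin r) ℂ)) -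
      (y' + d • (1 : Matrix (Fin r) (Fin r) ℂ)) * (x' + c • (1 : Matrix (Fin r) (Fin r) ℂ)) = x' * y' - y' * x' := by
    simp only [add_mul, mul_add, mul_smul_comm, smul_mul_assoc, mul_one, one_mul, smul_add]
    rw [smul_comm c d]
    abel
  rw [e1]
  exact le_cpS (G.cpL_br he hVW hWV _ hx' _ hy')

theorem IsGalU.cpS_irr (G : IsGalU w Q S P Γ) (he : IsBlk P e) (hVW : V * W = 1) (hWV : W * V = e)
    (hT0 : HasHT w Q Γ e)
    (U : Submodule ℂ (Fin r → ℂ)) (hU : ∀ y ∈ cpS W V (LG Γ), ∀ u ∈ U, y *ᵥ u ∈ U) : U = ⊥ ∨ U = ⊤ :=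
  G.irr' he hVW hWV hT0 U fun y hy => hU y (le_cpS hy)

theorem IsGalU.cpS_schur (G : IsGalU w Q S P Γ) (he : IsBlk P e) (hVW : V * W = 1) (hWV : W * V = e)
    (hT0 : HasHT w Q Γ e) (hr : 0 < r)
    (T : Matrix (Fin r) (Fin r) ℂ) (hT : ∀ x ∈ cpS W V (LG Γ), T * x = x * T) :
    ∃ c : ℂ, T = c • (1 : Matrix (Fin r) (Fin r) ℂ) := by
  have : Nonempty (Fin r) := ⟨⟨0, hr⟩⟩
  exact schur98 _ (G.cpS_irr he hVW hWV hT0) hT

/-- the commutant of the conjugates of a small element -/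
theorem IsGalU.hS_of (G : IsGalU w Q S P Γ) (he : IsBlk P e) (hVW : V * W = 1) (hWV : W * V = e) (hr : 2 ≤ r)
    (hR : IsHTw w Q S' Γ R) (hg : ∀ d : ℕ, (∀ p, d ∣ (e * R p).rank) → d = 1) (hD : DomG R e)
    (T : Matrix (Fin r) (Fin r) ℂ) (hT : ∀ s ∈ cpS W V (LG Γ), Dg s → Sm s → T * s = s * T) :
    ∃ c : ℂ, T = c • (1 : Matrix (Fin r) (Fin r) ℂ) := by
  classical
  have : Nonempty (Fin r) := ⟨⟨0, by omega⟩⟩
  have hre := blk_rank he hVW hWV
  obtain ⟨A, C⟩ := G.exists_CR hR he hVW hWV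
  obtain ⟨Δ, hΔ, hconj⟩ := G.exists_grp he hVW hWV
  obtain ⟨F, Λ, hSD, hF, hΛ⟩ := C.exists_sd 0
  rw [Int.cast_zero, zero_smul, sub_zero] at hSD
  set s := V * MH.hR S' R * W with hs
  have hdg : Dg s := by
    rw [hs, C.h]
    refine dg_of (c := fun p : ℤ => (p : ℂ)) ?_ C.mul C.sum
    intro p _ q _ h
    exact_mod_cast h
  have hsm : Sm s := by
    obtain ⟨p, hp⟩ := hD
    have hp0 : p ∈ S' := by
      by_contra h0
      rw [hR.supp p h0, Matrix.mul_zero, Matrix.rank_zero, hre] at hp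
      rcases hp with hp | hp
      · omega
      · have h1 : r - 0 + 1 ≤ (r - 0 + 1) ^ 2 := Nat.le_self_pow two_ne_zero _
        omega
    have h1 := rank_shift_le (c := fun p : ℤ => (p : ℂ)) C.mul C.sum hp0
    rw [← C.h, ← hs, Fintype.card_fin, C.rank] at h1
    refine ⟨(p : ℂ), ?_⟩
    rw [Fintype.card_fin]
    rw [hre] at hp
    rcases hp with hp | hp
    · left
      omega
    · right
      refine (Nat.pow_le_pow_left ?_ 2).trans hp
      omega
  obtain ⟨L', hL'⟩ : ∃ L' : Submodule ℂ (Matrix (Fin r) (Fin r) ℂ), L' = Submodule.span ℂ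
    {x | ∃ g ∈ Δ, x = (g : Matrix (Fin r) (Fin r) ℂ) * s * ((g⁻¹ : GL (Fin r) ℂ) : Matrix (Fin r) (Fin r) ℂ)} :=
    ⟨_, rfl⟩
  have hconj' : ∀ g ∈ Δ, ∀ y ∈ L', (g : Matrix (Fin r) (Fin r) ℂ) * y *
      ((g⁻¹ : GL (Fin r) ℂ) : Matrix (Fin r) (Fin r) ℂ) ∈ L' := by
    intro g hg' y hy
    rw [hL'] at hy ⊢
    induction hy using Submodule.span_induction with
    | mem y hy =>
      obtain ⟨g', hg'', rfl⟩ := hy
      refine Submodule.subset_span ⟨g * g', Δ.mul_mem hg' hg'', ?_⟩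
      rw [_root_.mul_inv_rev, Units.val_mul, Units.val_mul]
      simp only [mul_assoc]
    | zero => rw [mul_zero, zero_mul]; exact Submodule.zero_mem _
    | add x y _ _ hx hy => rw [mul_add, add_mul]; exact Submodule.add_mem _ hx hy
    | smul c x _ hx => rw [mul_smul_comm, smul_mul_assoc]; exact Submodule.smul_mem _ c hx
  refine schur98 L' (fun U hU => ?_) fun X hX => ?_
  · refine clifford (Γ := Δ) L' hconj' hΔ (h := s) ?_ hSD ?_ U hU
    · rw [hL']
      refine Submodule.subset_span ⟨1, Δ.one_mem, ?_⟩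
      rw [inv_one, Units.val_one, one_mul, mul_one]
    · intro d hd
      refine hg d fun p => ?_
      by_cases hp : p ∈ S'
      · have h2 := hd _ (by rw [hΛ]; exact Finset.mem_image_of_mem _ hp)
        rwa [hF, C.rank] at h2
      · rw [hR.supp p hp, Matrix.mul_zero, Matrix.rank_zero]
        exact dvd_zero d
  · rw [hL'] at hX
    induction hX using Submodule.span_induction with
    | mem y hy =>
      obtain ⟨g, hg', rfl⟩ := hy
      have h1 : (g : Matrix (Fin r) (Fin r) ℂ) * ((g⁻¹ : GL (Fin r) ℂ) : Matrix (Fin r) (Fin r) ℂ) = 1 := by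
        rw [← Units.val_mul, mul_inv_cancel, Units.val_one]
      have h2 : ((g⁻¹ : GL (Fin r) ℂ) : Matrix (Fin r) (Fin r) ℂ) * (g : Matrix (Fin r) (Fin r) ℂ) = 1 := by
        rw [← Units.val_mul, inv_mul_cancel, Units.val_one]
      exact hT _ (le_cpS (hconj g hg' s ⟨_, hR.hR_mem, rfl⟩)) (Dg.cj h1 h2 hdg) (Sm.cj h1 hsm)
    | zero => rw [mul_zero, zero_mul]
    | add x y _ _ hx hy => rw [mul_add, add_mul, hx, hy]
    | smul c x _ hx => rw [mul_smul_comm, smul_mul_assoc, hx]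

/-- the invariant symmetric form in coordinates -/
theorem IsGalU.exists_form (H : IsHW w Q S P) (G : IsGalU w Q S P Γ) (he : IsBlk P e) (hVW : V * W = 1)
    (hWV : W * V = e) (hT0 : HasHT w Q Γ e) {m : ℤ} (hm : w = 2 * m) (hO : OrthB Q P e) :
    ∃ F Fi : Matrix (Fin r) (Fin r) ℂ, F * Fi = 1 ∧ Fi * F = 1 ∧ Fᵀ = F ∧
      (∀ x ∈ cpS W V (LG Γ), ∃ c : ℂ, xᵀ * F + F * x = c • F) ∧
      ∀ (S1 : Finset ℤ) (R1 : ℤ → Matrix n n ℂ), IsHTw w Q S1 Γ R1 →
        (V * hR S1 R1 * W - (m : ℂ) • (1 : Matrix (Fin r) (Fin r) ℂ))ᵀ * F +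
          F * (V * hR S1 R1 * W - (m : ℂ) • (1 : Matrix (Fin r) (Fin r) ℂ)) = 0 := by
  classical
  obtain ⟨x, hx, hxs, hx0⟩ := hO
  have hQs : (toC Q)ᵀ = toC Q := by
    rw [H.Q_symm, hm, _root_.zpow_mul]
    norm_num
  have heW : e * W = W := by
    rw [← hWV, Matrix.mul_assoc, hVW, Matrix.mul_one]
  have hVe : V * e = V := by
    rw [← hWV, ← Matrix.mul_assoc, hVW, Matrix.one_mul]
  obtain ⟨F, hF⟩ : ∃ F, F = Wᵀ * (toC Q * x) * W := ⟨_, rfl⟩
  have hFs : Fᵀ = F := by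
    rw [hF, Matrix.transpose_mul, Matrix.transpose_mul, Matrix.transpose_transpose, Matrix.transpose_mul, hQs, hxs,
      ← Matrix.mul_assoc]
  have key : ∀ (X : Matrix n n ℂ) (c : ℂ), X * e = e * X → X * x = x * X → Xᵀ * toC Q + toC Q * X = c • toC Q →
      (V * X * W)ᵀ * F + F * (V * X * W) = c • F := by
    intro X c h1 h2 h3
    have a1 : W * (V * X * W) = X * W := by
      calc W * (V * X * W) = (W * V) * X * W := by simp only [Matrix.mul_assoc]
        _ = X * (e * W) := by rw [hWV, ← h1, Matrix.mul_assoc]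
        _ = X * W := by rw [heW]
    calc (V * X * W)ᵀ * F + F * (V * X * W)
        = (W * (V * X * W))ᵀ * (toC Q * x) * W + Wᵀ * (toC Q * x) * (W * (V * X * W)) := by
          rw [hF, Matrix.transpose_mul W]
          simp only [Matrix.mul_assoc]
      _ = Wᵀ * ((Xᵀ * toC Q + toC Q * X) * x) * W := by
          rw [a1, Matrix.transpose_mul, Matrix.add_mul, Matrix.mul_add, Matrix.add_mul, Matrix.mul_assoc (toC Q) X x,
            h2]
          simp only [Matrix.mul_assoc]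
      _ = c • F := by
          rw [h3, hF, smul_mul_assoc, Matrix.mul_smul, Matrix.smul_mul]
  have hL : ∀ y ∈ cpL W V (LG Γ), ∃ c : ℂ, yᵀ * F + F * y = c • F := by
    rintro _ ⟨X, hX, rfl⟩
    obtain ⟨c, hc⟩ := G.LG_sim H hX
    exact ⟨c, key X c (G.LG_com hX he.mem) (G.LG_com hX hx) hc⟩
  have hF0 : F ≠ 0 := by
    intro h0
    apply hx0
    calc eᵀ * (toC Q * x) * e = Vᵀ * (Wᵀ * (toC Q * x) * W) * V := by
          rw [← hWV, Matrix.transpose_mul]
          simp only [Matrix.mul_assoc]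
      _ = 0 := by rw [← hF, h0, Matrix.mul_zero, Matrix.zero_mul]
  have hker : LinearMap.ker (Matrix.toLin' F) = ⊥ := by
    rcases G.irr' he hVW hWV hT0 (LinearMap.ker (Matrix.toLin' F)) (by
      intro y hy u hu
      obtain ⟨c, hc⟩ := hL y hy
      rw [LinearMap.mem_ker, Matrix.toLin'_apply] at hu ⊢
      have h1 : F * y = c • F - yᵀ * F := by rw [← hc]; abel
      rw [Matrix.mulVec_mulVec, h1, Matrix.sub_mulVec, Matrix.smul_mulVec, ← Matrix.mulVec_mulVec, hu,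
        Matrix.mulVec_zero, smul_zero, sub_zero]) with h1 | h1
    · exact h1
    · exfalso
      apply hF0
      rw [LinearMap.ker_eq_top] at h1
      exact (LinearEquiv.map_eq_zero_iff _).1 h1
  have hu : IsUnit F := by
    rw [← Matrix.isUnit_toLin'_iff]
    exact (LinearMap.isUnit_iff_ker_eq_bot _).2 hker
  obtain ⟨⟨F0, Fi, h1, h2⟩, rfl⟩ := hu
  refine ⟨F0, Fi, h1, h2, hFs, ?_, ?_⟩
  · intro y hy
    obtain ⟨y', hy', d, rfl⟩ := mem_cpS.1 hy
    obtain ⟨c, hc⟩ := hL y' hy'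
    refine ⟨c + 2 * d, ?_⟩
    change (y' + d • (1 : Matrix (Fin r) (Fin r) ℂ))ᵀ * F0 + F0 * (y' + d • (1 : Matrix (Fin r) (Fin r) ℂ)) = _
    change y'ᵀ * F0 + F0 * y' = c • F0 at hc
    rw [Matrix.transpose_add, Matrix.transpose_smul, Matrix.transpose_one, Matrix.add_mul, Matrix.mul_add,
      Matrix.smul_mul, Matrix.mul_smul, Matrix.one_mul, Matrix.mul_one, add_smul, ← hc, mul_smul, two_smul]
    abel
  · intro S1 R1 hR1
    have h3 := hR1.skew hm
    have h4 := key (hR S1 R1 - (m : ℂ) • (1 : Matrix n n ℂ)) 0 (by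
      rw [sub_mul, mul_sub, G.LG_com hR1.hR_mem he.mem, smul_mul_assoc, mul_smul_comm, one_mul, mul_one]) (by
      rw [sub_mul, mul_sub, G.LG_com hR1.hR_mem hx, smul_mul_assoc, mul_smul_comm, one_mul, mul_one]) (by
      rw [h3, zero_smul])
    rw [zero_smul] at h4
    have h5 : V * (hR S1 R1 - (m : ℂ) • (1 : Matrix n n ℂ)) * W =
        V * hR S1 R1 * W - (m : ℂ) • (1 : Matrix (Fin r) (Fin r) ℂ) := by
      rw [Matrix.mul_sub, Matrix.sub_mul, Matrix.mul_smul, Matrix.smul_mul, Matrix.mul_one, hVW]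
    rwa [h5] at h4

end cmp

end MH

end P3

section P4

open Matrix Module GH

namespace MH

variable {n : Type*} [Fintype n] [DecidableEq n]

variable {w : ℤ} {Q : Matrix n n ℚ} {S S' : Finset ℤ} {P R : ℤ → Matrix n n ℂ} {Γ : Subgroup (GL n ℂ)}

section cmp

variable {r : ℕ} {W : Matrix n (Fin r) ℂ} {V : Matrix (Fin r) n ℂ} {e : Matrix n n ℂ}

/-- all skew matrices, from a decomposition with a dominating middle number -/
theorem IsGalU.full_irr (G : IsGalU w Q S P Γ) (he : IsBlk P e) (hVW : V * W = 1)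
    (hWV : W * V = e) (hr : 3 ≤ r) {m : ℤ} {S1 : Finset ℤ} {R1 : ℤ → Matrix n n ℂ}
    (hR1 : IsHTw w Q S1 Γ R1) (hg : ∀ d : ℕ, (∀ p, d ∣ (e * R1 p).rank) → d = 1) (hD : DomM m S1 R1 e)
    {F Fi : Matrix (Fin r) (Fin r) ℂ} (hF1 : F * Fi = 1) (hF2 : Fi * F = 1) (hFs : Fᵀ = F)
    (hFL : ∀ x ∈ cpS W V (LG Γ), ∃ c : ℂ, xᵀ * F + F * x = c • F)
    (hFh : (V * hR S1 R1 * W - (m : ℂ) • (1 : Matrix (Fin r) (Fin r) ℂ))ᵀ * F +
          F * (V * hR S1 R1 * W - (m : ℂ) • (1 : Matrix (Fin r) (Fin r) ℂ)) = 0) :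
    (∀ x : Matrix (Fin r) (Fin r) ℂ, xᵀ * F + F * x = 0 → x ∈ cpS W V (LG Γ)) ∧ 5 ≤ r := by
  classical
  have hre := blk_rank he hVW hWV
  obtain ⟨A, C⟩ := G.exists_CR hR1 he hVW hWV
  obtain ⟨E, Λ, hSD, hE, hΛ⟩ := C.exists_sd m
  obtain ⟨hsum, h0⟩ := C.sums hE hΛ
  have hD' : 2 ≤ sB m S1 R1 e ∧ sB m S1 R1 e ^ 2 < (e * R1 m).rank := by
    rcases hD with hD | hD
    · exfalso
      refine C.not_one (by omega) hg m ?_
      calc A m = V * (e * R1 m) * W := by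
            rw [C.eq, ← hWV, ← Matrix.mul_assoc V, ← Matrix.mul_assoc V, hVW, Matrix.one_mul]
        _ = 1 := by rw [hD, ← hWV, ← Matrix.mul_assoc V, hVW, Matrix.one_mul, hVW]
    · exact hD
  obtain ⟨hs2, hsq⟩ := hD'
  have h5 : 5 ≤ r := by
    have h3 : (e * R1 m).rank ≤ e.rank := Matrix.rank_mul_le_left e (R1 m)
    have h4 : 2 ^ 2 ≤ sB m S1 R1 e ^ 2 := Nat.pow_le_pow_left hs2 2
    omega
  refine ⟨fun x hx => ?_, h5⟩
  obtain ⟨L0, hL0⟩ : ∃ L0 : Submodule ℂ (Matrix (Fin r) (Fin r) ℂ), ∀ y, y ∈ L0 ↔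
      (y ∈ cpS W V (LG Γ) ∧ yᵀ * F + F * y = 0) := by
    refine ⟨{ carrier := {y | y ∈ cpS W V (LG Γ) ∧ yᵀ * F + F * y = 0}, add_mem' := ?_, zero_mem' := ?_,
              smul_mem' := ?_ }, fun y => Iff.rfl⟩
    · rintro a b ⟨ha', ha⟩ ⟨hb', hb⟩
      refine ⟨Submodule.add_mem _ ha' hb', ?_⟩
      rw [Matrix.transpose_add, Matrix.add_mul, Matrix.mul_add]
      calc aᵀ * F + bᵀ * F + (F * a + F * b) = (aᵀ * F + F * a) + (bᵀ * F + F * b) := by abel
        _ = 0 := by rw [ha, hb, add_zero]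
    · exact ⟨Submodule.zero_mem _, by simp⟩
    · rintro c a ⟨ha', ha⟩
      refine ⟨Submodule.smul_mem _ c ha', ?_⟩
      rw [Matrix.transpose_smul, Matrix.smul_mul, Matrix.mul_smul, ← smul_add, ha, smul_zero]
  have hdec : ∀ y ∈ cpS W V (LG Γ), ∃ c : ℂ, y - c • (1 : Matrix (Fin r) (Fin r) ℂ) ∈ L0 := by
    intro y hy
    obtain ⟨c, hc⟩ := hFL y hy
    refine ⟨c / 2, ?_⟩
    rw [hL0]
    refine ⟨Submodule.sub_mem _ hy (Submodule.smul_mem _ _ one_cpS), ?_⟩
    rw [Matrix.transpose_sub, Matrix.transpose_smul, Matrix.transpose_one, Matrix.sub_mul, Matrix.mul_sub,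
      Matrix.smul_mul, Matrix.mul_smul, Matrix.one_mul, Matrix.mul_one]
    calc yᵀ * F - (c / 2) • F + (F * y - (c / 2) • F) = (yᵀ * F + F * y) - c • F := by module
      _ = 0 := by rw [hc, sub_self]
  have hbr : ∀ X ∈ L0, ∀ Y ∈ L0, X * Y - Y * X ∈ L0 := by
    intro x hx y hy
    rw [hL0] at hx hy ⊢
    refine ⟨G.cpS_br he hVW hWV x hx.1 y hy.1, ?_⟩
    have a1 : xᵀ * F = -(F * x) := eq_neg_of_add_eq_zero_left hx.2
    have a2 : yᵀ * F = -(F * y) := eq_neg_of_add_eq_zero_left hy.2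
    rw [Matrix.transpose_sub, Matrix.transpose_mul, Matrix.transpose_mul, sub_mul, mul_assoc, mul_assoc, a1, a2,
      mul_neg, mul_neg, ← mul_assoc, ← mul_assoc, a1, a2]
    simp only [neg_mul, neg_neg, mul_sub, mul_assoc]
    abel
  have hirr : ∀ U : Submodule ℂ (Fin r → ℂ), (∀ X ∈ L0, ∀ u ∈ U, X *ᵥ u ∈ U) → U = ⊥ ∨ U = ⊤ := by
    intro U hU
    refine G.cpS_irr he hVW hWV ⟨_, _, hR1, hg⟩ U fun y hy u hu => ?_
    obtain ⟨c, hc⟩ := hdec y hy
    have e1 := hU _ hc u hu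
    have e2 : y *ᵥ u = (y - c • (1 : Matrix (Fin r) (Fin r) ℂ)) *ᵥ u + c • u := by
      rw [Matrix.sub_mulVec, Matrix.smul_mulVec, Matrix.one_mulVec, sub_add_cancel]
    rw [e2]
    exact U.add_mem e1 (U.smul_mem _ hu)
  have hh : V * hR S1 R1 * W - (m : ℂ) • (1 : Matrix (Fin r) (Fin r) ℂ) ∈ L0 := by
    rw [hL0]
    exact ⟨Submodule.sub_mem _ (le_cpS ⟨_, hR1.hR_mem, rfl⟩) (Submodule.smul_mem _ _ one_cpS), hFh⟩
  have hmem := full_of_irr4 F Fi hFs hF1 hF2 L0 hbr hirr (fun X hX => ((hL0 X).1 hX).2) hh hSD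
    (by rw [hsum]; exact hs2) (by rw [hsum, h0]; exact hsq) (fun d hd => hg d fun p => by
      by_cases hp : p ∈ S1
      · have h2 := hd _ (by rw [hΛ]; exact Finset.mem_image_of_mem _ hp)
        rwa [hE, C.rank] at h2
      · rw [hR1.supp p hp, Matrix.mul_zero, Matrix.rank_zero]
        exact dvd_zero d)
    (fun hne htr => exists_herm L0 hbr hirr htr hh hSD) hx
  exact ((hL0 x).1 hmem).1

/-- a basis in which the large eigenvalue is zero and everything is closed under the adjoint -/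
theorem IsGalU.exists_gr (G : IsGalU w Q S P Γ) (he : IsBlk P e) (hVW : V * W = 1)
    (hWV : W * V = e) (hr : 2 ≤ r) (hR : IsHTw w Q S' Γ R)
    (hg : ∀ d : ℕ, (∀ p, d ∣ (e * R p).rank) → d = 1) (p : ℤ) :
    ∃ (B Bi h : Matrix (Fin r) (Fin r) ℂ) (E : ℝ → Matrix (Fin r) (Fin r) ℂ) (Λ : Finset ℝ), B * Bi = 1 ∧ Bi * B = 1 ∧
      Gr (cjS B Bi (cpS W V (LG Γ))) h E Λ ∧ E 0 ≠ 1 ∧ (1 - E 0).rank + (e * R p).rank = r := by
  classical
  have : Nonempty (Fin r) := ⟨⟨0, by omega⟩⟩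
  obtain ⟨A, C⟩ := G.exists_CR hR he hVW hWV
  obtain ⟨E, Λ, hSD, hE, hΛ⟩ := C.exists_sd p
  have hmem : V * MH.hR S' R * W - (p : ℂ) • (1 : Matrix (Fin r) (Fin r) ℂ) ∈ cpS W V (LG Γ) :=
    Submodule.sub_mem _ (le_cpS ⟨_, hR.hR_mem, rfl⟩) (Submodule.smul_mem _ _ one_cpS)
  obtain ⟨B, Bi, h1, h2, h3, h4⟩ := exists_coord98 one_cpS (G.cpS_br he hVW hWV) (G.cpS_irr he hVW hWV ⟨_, _, hR, hg⟩) hmem hSD
  have hAp : E 0 = A p := by
    have h5 := hE p
    rwa [sub_self, Int.cast_zero] at h5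
  refine ⟨B, Bi, _, fun μ => cj B Bi (E μ), Λ, h1, h2, ⟨spec_of98 (sd_cj98 hSD h1 h2) h3,
    cjS_br h1 (G.cpS_br he hVW hWV), h4, cjS_mem h2 hmem⟩, ?_, ?_⟩
  · intro h5
    apply C.not_one hr hg p
    have h6 := congrArg (cj Bi B) h5
    rwa [cj_cj h2, cj_one h2, hAp] at h6
  · have hAA : A p * A p = A p := by rw [C.mul, if_pos rfl]
    have h5 := rank_compl (F := cj B Bi (A p)) (by rw [cj_mul h2, hAA])
    rw [rank_cj h1 h2 hAA, C.rank, Fintype.card_fin] at h5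
    simp only [hAp]
    exact h5

end cmp

end MH

end P4
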