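import Pool.Agent.Helper98.GP.Cpy
import Pool.Agent.Helper98.PF.Wrap

/-!
Project GP (MP_b8862a_ag), block U1: the type of a block from one Hodge-Tate decomposition.
-/

set_option linter.unusedSectionVars false

open Matrix Module GH

namespace MH

section sdf

variable {k : Type*} [Fintype k] [DecidableEq k] {h F Fi : Matrix k k ℂ} {E : ℝ → Matrix k k ℂ} {Λ : Finset ℝ}

theorem SD.rank_sub98 (hE : SD h E Λ) (μ : ℝ) :
    (h - (μ : ℂ) • (1 : Matrix k k ℂ)).rank + (E μ).rank = Fintype.card k := by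
  have h1 := LinearMap.finrank_range_add_finrank_ker (Matrix.toLin' (h - (μ : ℂ) • (1 : Matrix k k ℂ)))
  have h2 : LinearMap.ker (Matrix.toLin' (h - (μ : ℂ) • (1 : Matrix k k ℂ))) =
      Module.End.eigenspace (Matrix.toLin' h) (μ : ℂ) := by
    ext v
    rw [LinearMap.mem_ker, Module.End.mem_eigenspace_iff, Matrix.toLin'_apply, Matrix.toLin'_apply, Matrix.sub_mulVec,
      Matrix.smul_mulVec, Matrix.one_mulVec, sub_eq_zero]
  rw [h2, hE.finrank_eig98, Module.finrank_fintype_fun_eq_card] at h1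
  exact h1

theorem SD.rank_neg98 (hE : SD h E Λ) (f1 : F * Fi = 1) (f2 : Fi * F = 1) (hF : hᵀ * F + F * h = 0) (μ : ℝ) :
    (E (-μ)).rank = (E μ).rank := by
  have uF : IsUnit F.det := by
    rw [← Matrix.isUnit_iff_isUnit_det]
    exact ⟨⟨F, Fi, f1, f2⟩, rfl⟩
  have uFi : IsUnit Fi.det := by
    rw [← Matrix.isUnit_iff_isUnit_det]
    exact ⟨⟨Fi, F, f2, f1⟩, rfl⟩
  have uF' : IsUnit (-F).det := by
    rw [← Matrix.isUnit_iff_isUnit_det]
    exact ((Matrix.isUnit_iff_isUnit_det F).mpr uF).neg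
  have ht : hᵀ = -(F * h * Fi) := by
    have e1 : hᵀ * F = -(F * h) := eq_neg_of_add_eq_zero_left hF
    calc hᵀ = hᵀ * F * Fi := by rw [Matrix.mul_assoc, f1, Matrix.mul_one]
      _ = -(F * h * Fi) := by rw [e1, Matrix.neg_mul]
  have hs : (h - (μ : ℂ) • (1 : Matrix k k ℂ)).rank = (h - ((-μ : ℝ) : ℂ) • (1 : Matrix k k ℂ)).rank := by
    rw [← Matrix.rank_transpose (h - (μ : ℂ) • (1 : Matrix k k ℂ))]
    have e1 : (h - (μ : ℂ) • (1 : Matrix k k ℂ))ᵀ = (-F) * (h - ((-μ : ℝ) : ℂ) • (1 : Matrix k k ℂ)) * Fi := by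
      rw [Matrix.transpose_sub, Matrix.transpose_smul, Matrix.transpose_one, ht]
      push_cast
      rw [neg_smul, sub_neg_eq_add, Matrix.neg_mul, Matrix.neg_mul, Matrix.mul_add, Matrix.add_mul, Matrix.mul_smul,
        Matrix.mul_one, Matrix.smul_mul, f1, neg_add, sub_eq_add_neg]
    rw [e1, Matrix.rank_mul_eq_left_of_isUnit_det _ _ uFi, Matrix.rank_mul_eq_right_of_isUnit_det _ _ uF']
  have h1 := hE.rank_sub98 μ
  have h2 := hE.rank_sub98 (-μ)
  omega

theorem SD.card_ge98 (hE : SD h E Λ) (f1 : F * Fi = 1) (f2 : Fi * F = 1) (hF : hᵀ * F + F * h = 0) :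
    (E 0).rank + 2 * ∑ μ ∈ Λ.filter (fun μ => 0 < μ), (E μ).rank ≤ Fintype.card k := by
  classical
  have hEE : ∀ μ, E μ * E μ = E μ := fun μ => by rw [hE.mul, if_pos rfl]
  have hsum : ∀ T : Finset ℝ, ∑ μ ∈ T, (E μ).rank ≤ Fintype.card k := by
    intro T
    have h1 : ∑ μ ∈ T ∪ Λ, (E μ).rank = Fintype.card k := by
      have h2 : ∑ μ ∈ T ∪ Λ, E μ = 1 := by
        rw [← hE.sum]
        exact (Finset.sum_subset Finset.subset_union_right fun μ _ hμ => hE.supp hμ).symm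
      have h3 := congrArg Matrix.trace h2
      rw [Matrix.trace_sum, Matrix.trace_one, Finset.sum_congr rfl fun μ _ => trace_eq_rank (hEE μ)] at h3
      exact_mod_cast h3
    rw [← h1]
    exact Finset.sum_le_sum_of_subset Finset.subset_union_left
  have h1 := hsum ({0} ∪ (Λ.filter (fun μ => 0 < μ) ∪ (Λ.filter (fun μ => 0 < μ)).image fun μ => -μ))
  have hd1 : Disjoint (Λ.filter (fun μ : ℝ => 0 < μ)) ((Λ.filter (fun μ : ℝ => 0 < μ)).image fun μ => -μ) := by
    rw [Finset.disjoint_left]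
    intro μ h2 h3
    obtain ⟨ν, h4, h5⟩ := Finset.mem_image.1 h3
    have h6 := (Finset.mem_filter.1 h2).2
    have h7 := (Finset.mem_filter.1 h4).2
    linarith
  have hd2 : Disjoint ({0} : Finset ℝ) (Λ.filter (fun μ : ℝ => 0 < μ) ∪
      (Λ.filter (fun μ : ℝ => 0 < μ)).image fun μ => -μ) := by
    rw [Finset.disjoint_singleton_left, Finset.mem_union]
    rintro (h2 | h2)
    · exact lt_irrefl _ (Finset.mem_filter.1 h2).2
    · obtain ⟨ν, h4, h5⟩ := Finset.mem_image.1 h2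
      have h7 := (Finset.mem_filter.1 h4).2
      linarith
  rw [Finset.sum_union hd2, Finset.sum_union hd1, Finset.sum_singleton,
    Finset.sum_image (fun a _ b _ h => neg_injective h)] at h1
  have h2 : ∑ μ ∈ Λ.filter (fun μ : ℝ => 0 < μ), (E (-μ)).rank = ∑ μ ∈ Λ.filter (fun μ : ℝ => 0 < μ), (E μ).rank :=
    Finset.sum_congr rfl fun μ _ => hE.rank_neg98 f1 f2 hF μ
  rw [h2] at h1
  omega

end sdf

variable {n : Type*} [Fintype n] [DecidableEq n]
variable {w : ℤ} {Q : Matrix n n ℚ} {S : Finset ℤ} {P : ℤ → Matrix n n ℂ} {Γ : Subgroup (GL n ℂ)}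
variable {r : ℕ} {W : Matrix n (Fin r) ℂ} {V : Matrix (Fin r) n ℂ} {e : Matrix n n ℂ}

/-- **U1.** A block of `LG` has full type if one Hodge-Tate decomposition dominates on it and its numbers on the block
have no common divisor. -/
theorem IsGalU.tyN (H : IsHW w Q S P) (G : IsGalU w Q S P Γ) (he : IsBlk P e) (hVW : V * W = 1)
    (hWV : W * V = e) (hr : 2 ≤ r) {S1 : Finset ℤ} {R1 : ℤ → Matrix n n ℂ} (hR1 : IsHTw w Q S1 Γ R1)
    (hg : ∀ d : ℕ, (∀ p, d ∣ (e * R1 p).rank) → d = 1) (hD : DomR w Q P S1 R1 e) : TyN (cpS W V (LG Γ)) := by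
  classical
  have hre := blk_rank he hVW hWV
  have hT0 : HasHT w Q Γ e := ⟨S1, R1, hR1, hg⟩
  have hsl : (∀ x : Matrix (Fin r) (Fin r) ℂ, x.trace = 0 → x ∈ cpS W V (LG Γ)) → TyN (cpS W V (LG Γ)) :=
    fun h => ⟨Or.inl h, Or.inl h⟩
  rcases hD with hD | ⟨m, hm, hO, hD⟩
  · obtain ⟨p, hp⟩ := hD
    obtain ⟨B, Bi, h, E, Λ, h1, h2, hG, hE0, hrk⟩ := G.exists_gr he hVW hWV hr hR1 hg p
    rw [hre] at hp
    rcases Nat.lt_or_ge r 9 with hr9 | hr9
    · -- small rank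
      apply hsl
      intro x hx
      have hp1 : (1 - E 0).rank ≤ 1 := by
        rcases hp with hp | hp
        · omega
        · by_contra hcon
          have h5 : 3 ≤ r - (e * R1 p).rank + 1 := by omega
          have h6 : 3 ^ 2 ≤ (r - (e * R1 p).rank + 1) ^ 2 := Nat.pow_le_pow_left h5 2
          omega
      have h5 := hG.one_sl (cjS_irr h1 h2 (G.cpS_schur he hVW hWV hT0 (by omega))) hE0 hp1
        (x := cj B Bi x) (by rw [trace_cj98 h2]; exact hx)
      rwa [mem_cjS, cj_cj h2] at h5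
    · have h5 := gst hG (cjS_one h2 one_cpS) hE0 (by
        rw [Fintype.card_fin]
        rcases hp with hp | hp
        · left
          omega
        · right
          refine le_trans (Nat.pow_le_pow_left ?_ 2) hp
          omega) (by rw [Fintype.card_fin]; omega) (fun T hT => by
        obtain ⟨c, hc⟩ := G.hS_of he hVW hWV hr hR1 hg ⟨p, by rw [hre]; exact hp⟩ (cj Bi B T) fun s hs hdg hsm => by
          have e1 := congrArg (cj Bi B) (hT _ (cjS_mem h2 hs) (Dg.cj h1 h2 hdg) (Sm.cj h1 hsm))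
          rwa [← cj_mul h1, ← cj_mul h1, cj_cj h2] at e1
        refine ⟨c, ?_⟩
        have e2 := congrArg (cj B Bi) hc
        rwa [cj_cj h1, cj_smul, cj_one h1] at e2)
      exact ⟨Ty.of_cjS h1 h2 h5.ty, Or.inr (by rw [Fintype.card_fin]; exact hr9)⟩
  · obtain ⟨F, Fi, hF1, hF2, hFs, hFL, hFh⟩ := G.exists_form H he hVW hWV hT0 hm hO
    obtain ⟨A, C⟩ := G.exists_CR hR1 he hVW hWV
    rcases hD with hD | ⟨hD1, hD2⟩
    · exfalso
      refine C.not_one (by omega) hg m ?_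
      calc A m = V * (e * R1 m) * W := by
            rw [C.eq, ← hWV, ← Matrix.mul_assoc V, ← Matrix.mul_assoc V, hVW, Matrix.one_mul]
        _ = 1 := by rw [hD, ← hWV, ← Matrix.mul_assoc V, hVW, Matrix.one_mul, hVW]
    · have hr9 : 9 ≤ r := by
        obtain ⟨E, Λ, hSD, hE, hΛ⟩ := C.exists_sd m
        obtain ⟨hsum, h0⟩ := C.sums hE hΛ
        have h5 := hSD.card_ge98 hF1 hF2 (hFh S1 R1 hR1)
        rw [Fintype.card_fin, h0, hsum] at h5
        have h6 : sB m S1 R1 e = ∑ p ∈ S1.filter (fun p => m < p), (e * R1 p).rank := rfl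
        rw [← h6] at h5
        have h4 : 2 ^ 2 ≤ sB m S1 R1 e ^ 2 := Nat.pow_le_pow_left hD1 2
        omega
      obtain ⟨hfull, h5⟩ := G.full_irr he hVW hWV (by omega) hR1 hg (Or.inr ⟨hD1, hD2⟩) hF1 hF2 hFs hFL
        (hFh S1 R1 hR1)
      refine ⟨Or.inr ⟨F, Or.inl hFs, ⟨⟨F, Fi, hF1, hF2⟩, rfl⟩, hfull, hFL⟩, Or.inr ?_⟩
      rw [Fintype.card_fin]
      exact hr9

end MH
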